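import Pool.Agent.W475.BG.Inst

set_option autoImplicit false

namespace Pool.Agent.W50.BG

open Pool.Agent.W475.BG Pool.Agent.W475.BH

theorem prm : S_PRM := by
  intro a ha α β hα hαβ
  set δ : ℝ := (β - α) / 4 with hδ
  have hδ0 : 0 < δ := by rw [hδ]; linarith
  obtain ⟨c, T0, hc, hT0, h⟩ := ha (α + δ) (β - δ) (by linarith) (by rw [hδ]; linarith)
  refine ⟨c, max T0 (Real.exp (1 / δ)), hc, le_max_of_le_left hT0, fun T hT => ?_⟩
  have hTT0 : T0 ≤ T := (le_max_left _ _).trans hT
  have hTe : Real.exp (1 / δ) ≤ T := (le_max_right _ _).trans hT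
  have hT0' : 0 < T := by linarith
  have hT1 : 1 ≤ T := by linarith
  have hlog : 1 ≤ δ * Real.log T := by
    have h1 : 1 / δ ≤ Real.log T := (Real.le_log_iff_exp_le hT0').2 hTe
    have h2 := mul_le_mul_of_nonneg_left h1 hδ0.le
    rwa [mul_one_div_cancel hδ0.ne'] at h2
  refine (h T hTT0).trans (Finset.sum_le_sum_of_subset_of_nonneg ?_ ?_)
  · intro p hp
    obtain ⟨hp1, hp2⟩ := Finset.mem_filter.1 hp
    obtain ⟨hp3, hp4⟩ := Finset.mem_Ioc.1 hp1
    have hp0 : (0 : ℝ) < p := by exact_mod_cast hp2.pos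
    have hlow : T ^ (α + δ) < (p : ℝ) := Nat.lt_of_floor_lt hp3
    have hup : (p : ℝ) ≤ T ^ (β - δ) := (Nat.le_floor_iff (Real.rpow_nonneg hT0'.le _)).1 hp4
    have hll : (α + δ) * Real.log T < Real.log p := by
      rw [← Real.log_rpow hT0']
      exact Real.log_lt_log (Real.rpow_pos_of_pos hT0' _) hlow
    have hlu : Real.log p ≤ (β - δ) * Real.log T := by
      rw [← Real.log_rpow hT0']
      exact Real.log_le_log hp0 hup
    unfold PP
    refine Finset.mem_filter.2 ⟨?_, hp2, ?_, ?_⟩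
    · rw [Finset.mem_range]
      have h1 : (p : ℝ) ≤ T ^ β :=
        hup.trans (Real.rpow_le_rpow_of_exponent_le hT1 (by linarith))
      have h2 := Nat.le_floor h1
      omega
    · nlinarith
    · nlinarith
  · intro p _ _
    positivity

end Pool.Agent.W50.BG
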